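import Pool.Agent.V8H15.BT.EDefs

/-!
# Antisymmetrizers: vanishing, the relation of a vanishing exterior power, and the descent
-/

set_option autoImplicit false
set_option linter.unusedSectionVars false

open Equiv Equiv.Perm

namespace Pool.Agent.V8H40.BT

open Pool.Agent.V8H87.GG hiding sg sg_mul sg_one sg_sq sg_swap
open Pool.Agent.V8H15.BT

variable {A : ℕ → Type*} [∀ n, Ring (A n)] [∀ n, Algebra ℚ (A n)] {E : Type*} [Ring E]
    [Algebra ℚ E] {T : TT A E} {B : Bra T}

lemma sg_ex {m : ℕ} (σ : Perm (Fin m)) : sg (ex σ) = sg σ := by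
  rw [sg, sg, sign_ex]

lemma Q_cast {k m : ℕ} (h : k = m) (hQ : Q T k = 0) : Q T m = 0 := by
  subst h
  exact hQ

lemma SS_univ {m : ℕ} : Comb.SS (Finset.univ : Finset (Fin m)) = Finset.univ := by
  ext σ
  rw [Comb.mem_SS]
  simp

lemma Y_univ (m : ℕ) : Y T (Finset.univ : Finset (Fin m)) = Q T m := by
  rw [Y, SS_univ, Q]

/-- the points of `U`, moved by the exchange of `0` and `v` -/
def dnU {m : ℕ} (U : Finset (Fin (m + 1))) (v : Fin (m + 1)) : Finset (Fin m) :=
  Finset.univ.filter (fun j => swap 0 v j.succ ∈ U)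

lemma mem_dnU {m : ℕ} {U : Finset (Fin (m + 1))} {v : Fin (m + 1)} {j : Fin m} :
    j ∈ dnU U v ↔ swap 0 v j.succ ∈ U := by
  simp [dnU]

lemma exists_pre {m : ℕ} {v i : Fin (m + 1)} (hi : i ≠ v) : ∃ j : Fin m, swap 0 v j.succ = i := by
  have h : swap 0 v i ≠ 0 := by
    intro h
    apply hi
    have h2 : swap 0 v i = swap 0 v v := by rw [h, swap_apply_right]
    exact (swap 0 v).injective h2
  obtain ⟨j, hj⟩ := Fin.exists_succ_eq.2 h
  refine ⟨j, ?_⟩
  rw [hj, swap_apply_self]

lemma card_dnU {m : ℕ} {U : Finset (Fin (m + 1))} {v : Fin (m + 1)} (hv : v ∉ U) :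
    (dnU U v).card = U.card := by
  refine Finset.card_bij (fun j _ => swap 0 v j.succ) (fun j hj => mem_dnU.1 hj) ?_ ?_
  · intro j _ j' _ h
    exact Fin.succ_injective _ ((swap 0 v).injective h)
  · intro i hi
    obtain ⟨j, hj⟩ := exists_pre (v := v) (i := i) (fun h => hv (h ▸ hi))
    exact ⟨j, mem_dnU.2 (by rw [hj]; exact hi), hj⟩

lemma Y_dnU {m : ℕ} {U : Finset (Fin (m + 1))} {v : Fin (m + 1)} (hv : v ∉ U) :
    Y T U = T.th (m + 1) (swap 0 v) * T.ι m (Y T (dnU U v)) * T.th (m + 1) (swap 0 v) := by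
  have h1 : T.th (m + 1) (swap 0 v) * T.ι m (Y T (dnU U v)) * T.th (m + 1) (swap 0 v) =
      ∑ τ ∈ Comb.SS (dnU U v), sg τ • T.th (m + 1) (swap 0 v * ex τ * swap 0 v) := by
    rw [Y, map_sum, Finset.mul_sum, Finset.sum_mul]
    refine Finset.sum_congr rfl (fun τ _ => ?_)
    rw [map_smul, mul_smul_comm, smul_mul_assoc, map_mul, map_mul, T.th_ex]
  rw [h1, Y]
  symm
  refine Finset.sum_bij (fun τ _ => swap 0 v * ex τ * swap 0 v) ?_ ?_ ?_ ?_
  · intro τ hτ
    rw [Comb.mem_SS]
    intro i hi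
    rw [Perm.mul_apply, Perm.mul_apply]
    by_cases hiv : i = v
    · rw [hiv, swap_apply_right, ex_zero, swap_apply_left]
    · obtain ⟨j, hj⟩ := exists_pre (v := v) hiv
      have h2 : swap 0 v i = j.succ := by rw [← hj, swap_apply_self]
      have h3 : j ∉ dnU U v := fun h => hi (by rw [← hj]; exact mem_dnU.1 h)
      rw [h2, ex_succ, Comb.mem_SS.1 hτ j h3, hj]
  · intro τ _ τ' _ h
    have h2 := mul_left_cancel (mul_right_cancel h)
    exact Pool.Agent.V8H87.GG.ex_inj h2
  · intro σ hσ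
    have h0 : (swap 0 v * σ * swap 0 v) 0 = 0 := by
      rw [Perm.mul_apply, Perm.mul_apply, swap_apply_left, Comb.mem_SS.1 hσ v hv,
        swap_apply_right]
    obtain ⟨τ, hτ⟩ := exists_ex h0
    refine ⟨τ, ?_, ?_⟩
    · rw [Comb.mem_SS]
      intro j hj
      have h2 : (ex τ) j.succ = j.succ := by
        rw [← hτ, Perm.mul_apply, Perm.mul_apply,
          Comb.mem_SS.1 hσ _ (fun h => hj (mem_dnU.2 h)), swap_apply_self]
      rw [ex_succ] at h2
      exact Fin.succ_injective _ h2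
    · rw [← hτ]
      calc swap 0 v * (swap 0 v * σ * swap 0 v) * swap 0 v
          = (swap 0 v * swap 0 v) * σ * (swap 0 v * swap 0 v) := by simp only [mul_assoc]
        _ = σ := by rw [swap_mul_self, one_mul, mul_one]
  · intro τ _
    have h2 : sg (swap 0 v * ex τ * swap 0 v) = sg τ := by
      rw [sg_mul, sg_mul, sg_ex, mul_right_comm, sg_sq, one_mul]
    rw [h2]

/-- **The antisymmetrizer on a set of positions vanishes with the antisymmetrizer of the same
degree.** -/
theorem Y_zero {m : ℕ} {U : Finset (Fin m)} (h : Q T U.card = 0) : Y T U = 0 := by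
  induction m with
  | zero =>
    have hU : U = Finset.univ := by
      ext i
      exact i.elim0
    subst hU
    rw [Y_univ]
    exact Q_cast (by simp) h
  | succ m ih =>
    by_cases hU : U = Finset.univ
    · subst hU
      rw [Y_univ]
      exact Q_cast (by simp) h
    · obtain ⟨v, hv⟩ : ∃ v, v ∉ U := by
        by_contra hh
        refine hU (Finset.eq_univ_iff_forall.2 (fun i => ?_))
        by_contra hi
        exact hh ⟨i, hi⟩
      rw [Y_dnU hv, ih (Q_cast (card_dnU hv).symm h), map_zero, mul_zero, zero_mul]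

/-- the points which are the smaller ends of the arcs of the standard matching -/
def tr0 (k : ℕ) : Finset (Fin (2 * k)) := Finset.univ.filter (fun i => i < std (2 * k) i)

lemma std_std (k : ℕ) (i : Fin (2 * k)) : std (2 * k) (std (2 * k) i) = i :=
  Comb.match_apply (std_match k) i

lemma mem_tr0 {k : ℕ} {i : Fin (2 * k)} : i ∈ tr0 k ↔ i < std (2 * k) i := by
  simp [tr0]

lemma mem_tr0_std {k : ℕ} {i : Fin (2 * k)} : std (2 * k) i ∈ tr0 k ↔ i ∉ tr0 k := by
  rw [mem_tr0, mem_tr0, std_std, not_lt]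
  constructor
  · exact fun h => h.le
  · exact fun h => lt_of_le_of_ne h ((std_match k).2 i)

lemma card_tr0 (k : ℕ) : (tr0 k).card = k := by
  have h1 : (tr0 k).card = (tr0 k)ᶜ.card := by
    refine Finset.card_bij (fun i _ => std (2 * k) i) ?_ ?_ ?_
    · intro i hi
      rw [Finset.mem_compl, mem_tr0_std, not_not]
      exact hi
    · intro i _ j _ h
      exact (std (2 * k)).injective h
    · intro j hj
      exact ⟨std (2 * k) j, mem_tr0_std.2 (Finset.mem_compl.1 hj), std_std k j⟩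
  have h2 := Finset.card_add_card_compl (tr0 k)
  rw [Fintype.card_fin] at h2
  omega

/-- the coefficients of the relation of an exterior power -/
def alt (k : ℕ) (x : Perm (Fin (2 * k))) : ℚ :=
  ∑ σ ∈ (Comb.SS (tr0 k)).filter (fun σ => σ⁻¹ * std (2 * k) * σ = x), sg σ

lemma alt_std (k : ℕ) : alt k (std (2 * k)) = 1 := by
  have h : (Comb.SS (tr0 k)).filter (fun σ => σ⁻¹ * std (2 * k) * σ = std (2 * k)) = {1} := by
    ext σ
    rw [Finset.mem_filter, Finset.mem_singleton]
    constructor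
    · rintro ⟨h1, h2⟩
      have h3 : ∀ i, std (2 * k) (σ i) = σ (std (2 * k) i) := by
        intro i
        rw [← Perm.mul_apply, ← Perm.mul_apply]
        congr 1
        rw [mul_assoc, inv_mul_eq_iff_eq_mul] at h2
        exact h2
      ext i
      rw [Perm.one_apply]
      congr 1
      by_cases hi : i ∈ tr0 k
      · have h4 : std (2 * k) i ∉ tr0 k := by
          rw [mem_tr0_std, not_not]
          exact hi
        have h5 := h3 i
        rw [Comb.mem_SS.1 h1 _ h4] at h5
        exact (std (2 * k)).injective h5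
      · exact Comb.mem_SS.1 h1 i hi
    · rintro rfl
      refine ⟨?_, by rw [inv_one, one_mul, mul_one]⟩
      rw [Comb.mem_SS]
      intro i _
      rfl
  rw [alt, h, Finset.sum_singleton, sg_one]

/-- The product of the pairings only depends on the matching. -/
lemma G_same {k : ℕ} {π σ : Perm (Fin (2 * k))}
    (h : π⁻¹ * std (2 * k) * π = σ⁻¹ * std (2 * k) * σ) :
    B.G (2 * k) * T.th (2 * k) π = B.G (2 * k) * T.th (2 * k) σ := by
  have h1 : (π * σ⁻¹) * std (2 * k) = std (2 * k) * (π * σ⁻¹) := by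
    have h2 : π * (π⁻¹ * std (2 * k) * π) * σ⁻¹ = π * (σ⁻¹ * std (2 * k) * σ) * σ⁻¹ := by
      rw [h]
    calc (π * σ⁻¹) * std (2 * k) = π * (σ⁻¹ * std (2 * k) * σ) * σ⁻¹ := by group
      _ = π * (π⁻¹ * std (2 * k) * π) * σ⁻¹ := h2.symm
      _ = _ := by group
  have h3 := B.G_cent k _ h1
  calc B.G (2 * k) * T.th (2 * k) π = B.G (2 * k) * T.th (2 * k) (π * σ⁻¹ * σ) := by
        rw [inv_mul_cancel_right]
    _ = _ := by rw [map_mul, ← mul_assoc, h3]

/-- **A vanishing exterior power gives a relation.** -/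
theorem rel_of_alt {k : ℕ} (h : Q T k = 0) :
    ∃ a, B.Rel (2 * k) a ∧ ∃ x, IsMatch x ∧ a x ≠ 0 := by
  refine ⟨alt k, ?_, std (2 * k), std_match k, by rw [alt_std]; exact one_ne_zero⟩
  have hY : Y T (tr0 k) = 0 := Y_zero (Q_cast (card_tr0 k).symm h)
  have hcount : ∀ σ : Perm (Fin (2 * k)),
      ((Finset.univ.filter (fun π : Perm (Fin (2 * k)) =>
        σ⁻¹ * std (2 * k) * σ = π⁻¹ * std (2 * k) * π)).card : ℚ) =
      ((Finset.univ.filter (fun π : Perm (Fin (2 * k)) =>
        std (2 * k) = π⁻¹ * std (2 * k) * π)).card : ℚ) := by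
    intro σ
    congr 1
    refine Finset.card_bij (fun π _ => π * σ⁻¹) ?_ ?_ ?_
    · intro π hπ
      rw [Finset.mem_filter] at *
      refine ⟨Finset.mem_univ _, ?_⟩
      have h1 := hπ.2
      calc std (2 * k) = σ * (σ⁻¹ * std (2 * k) * σ) * σ⁻¹ := by group
        _ = σ * (π⁻¹ * std (2 * k) * π) * σ⁻¹ := by rw [h1]
        _ = _ := by group
    · intro π _ π' _ h
      exact mul_right_cancel h
    · intro π hπ
      refine ⟨π * σ, ?_, by group⟩
      rw [Finset.mem_filter] at *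
      refine ⟨Finset.mem_univ _, ?_⟩
      have h1 := hπ.2
      calc σ⁻¹ * std (2 * k) * σ = σ⁻¹ * (π⁻¹ * std (2 * k) * π) * σ := by rw [← h1]
        _ = _ := by group
  rw [Bra.Rel]
  have h1 : ∀ π : Perm (Fin (2 * k)), alt k (π⁻¹ * std (2 * k) * π) •
      (B.G (2 * k) * T.th (2 * k) π) = ∑ σ ∈ Comb.SS (tr0 k),
        if σ⁻¹ * std (2 * k) * σ = π⁻¹ * std (2 * k) * π then
          sg σ • (B.G (2 * k) * T.th (2 * k) σ) else 0 := by
    intro π
    rw [alt, Finset.sum_smul, Finset.sum_filter]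
    refine Finset.sum_congr rfl (fun σ _ => ?_)
    by_cases hσ : σ⁻¹ * std (2 * k) * σ = π⁻¹ * std (2 * k) * π
    · rw [if_pos hσ, if_pos hσ, G_same hσ]
    · rw [if_neg hσ, if_neg hσ]
  rw [Finset.sum_congr rfl (fun π _ => h1 π), Finset.sum_comm]
  have h2 : ∀ σ ∈ Comb.SS (tr0 k), (∑ π : Perm (Fin (2 * k)),
      if σ⁻¹ * std (2 * k) * σ = π⁻¹ * std (2 * k) * π then
          sg σ • (B.G (2 * k) * T.th (2 * k) σ) else 0) =
      ((Finset.univ.filter (fun π : Perm (Fin (2 * k)) =>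
        std (2 * k) = π⁻¹ * std (2 * k) * π)).card : ℚ) •
        (B.G (2 * k) * (sg σ • T.th (2 * k) σ)) := by
    intro σ _
    rw [← Finset.sum_filter, Finset.sum_const, ← Nat.cast_smul_eq_nsmul ℚ, hcount σ,
      mul_smul_comm]
  rw [Finset.sum_congr rfl h2, ← Finset.smul_sum, ← Finset.mul_sum]
  have h3 : ∑ σ ∈ Comb.SS (tr0 k), sg σ • T.th (2 * k) σ = 0 := hY
  rw [h3, mul_zero, smul_zero]

lemma Q_succ (m : ℕ) : Q T (m + 1) =
    ∑ p : Fin (m + 1), sg (swap 0 p) • (T.th (m + 1) (swap 0 p) * T.ι m (Q T m)) := by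
  rw [Q, ← Fintype.sum_bijective _ (swex_bij m) _ _ (fun x => rfl), Fintype.sum_prod_type]
  refine Finset.sum_congr rfl (fun p _ => ?_)
  rw [Q, map_sum, Finset.mul_sum, Finset.smul_sum]
  refine Finset.sum_congr rfl (fun e _ => ?_)
  rw [sg_mul, sg_ex, map_mul, T.th_ex, map_smul, mul_smul_comm, smul_smul]

/-- The exterior powers above a vanishing one vanish. -/
lemma Q_ge {N : ℕ} (h : Q T N = 0) : ∀ a, N ≤ a → Q T a = 0 := by
  intro a ha
  induction a, ha using Nat.le_induction with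
  | base => exact h
  | succ a ha ih =>
    rw [Q_succ]
    refine Finset.sum_eq_zero (fun p _ => ?_)
    rw [ih, map_zero, mul_zero, smul_zero]

/-- The partial trace of the antisymmetrizer. -/
lemma pt_Q (m : ℕ) : T.pt m (Q T (m + 1)) = (T.trE 1 - m) • Q T m := by
  rw [Q_succ, map_sum, Fin.sum_univ_succ]
  have h0 : T.pt m (sg (swap (0 : Fin (m + 1)) 0) • (T.th (m + 1) (swap 0 0) * T.ι m (Q T m))) =
      T.trE 1 • Q T m := by
    have hj := T.pt_j m 1
    rw [map_one] at hj
    rw [map_smul, T.pt_right, swap_self, ← Perm.one_def, map_one, hj, smul_mul_assoc, one_mul,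
      sg_one, one_smul]
  have h1 : ∀ i : Fin m, T.pt m (sg (swap 0 i.succ) •
      (T.th (m + 1) (swap 0 i.succ) * T.ι m (Q T m))) = - Q T m := by
    intro i
    rw [map_smul, T.pt_right, T.pt_swap, one_mul, sg_swap (Fin.succ_ne_zero i).symm, neg_smul,
      one_smul]
  rw [h0]
  simp only [h1, Finset.sum_const, Finset.card_univ, Fintype.card_fin]
  rw [sub_smul, ← Nat.cast_smul_eq_nsmul ℚ, smul_neg, sub_eq_add_neg]

/-- **Descent for the exterior powers.** -/
theorem Q_descent {b : ℕ} (hδ : T.trE 1 = b) (h : ∃ N, Q T N = 0) : Q T (b + 1) = 0 := by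
  obtain ⟨N, hN⟩ := h
  have h1 : ∀ d : ℕ, Q T (b + 1 + d) = 0 → Q T (b + 1) = 0 := by
    intro d
    induction d with
    | zero => intro h; exact h
    | succ d ih =>
      intro h
      refine ih ?_
      have h2 : Q T (b + 1 + d + 1) = 0 := h
      have h3 := congrArg (T.pt (b + 1 + d)) h2
      rw [pt_Q, map_zero, hδ] at h3
      rcases smul_eq_zero.1 h3 with h4 | h4
      · exfalso
        push_cast at h4
        have : (0 : ℚ) ≤ d := by positivity
        linarith
      · exact h4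
  exact h1 N (Q_ge hN _ (by omega))

end Pool.Agent.V8H40.BT
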