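import Pool.Agent.V8H87.GG.Cat
import Pool.Agent.V8H15.BT.Alg

/-!
# Powers of a pairing and the products of the pairing operators
-/

set_option autoImplicit false
set_option linter.unusedSectionVars false

open CategoryTheory Limits MonoidalCategory Module
open Pool.Agent.Y112.SR Pool.Agent.Y112.KD Pool.Agent.N64.AF
open Pool.Agent.Y116.MT (tr)
open Pool.Agent.V8H87.GG Pool.Agent.V8H15.BT

namespace Pool.Agent.V8H40.BT

universe v u w

section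

variable {C : Type u} [Category.{v} C] [MonoidalCategory C] [SymmetricCategory C]
  [RightRigidCategory C]

/-- Partial traces and morphisms of the first factor. -/
lemma ptr_comp' {L M N : C} (a : L ⟶ M) (b : M ⟶ L) (x : M ⊗ N ⟶ M ⊗ N) :
    ptr (a ▷ N ≫ x ≫ b ▷ N) = a ≫ ptr x ≫ b := by
  simp only [ptr, comp_whiskerRight, Category.assoc]
  rw [associator_naturality_left_assoc, ← whisker_exchange_assoc, rightUnitor_naturality,
    ← associator_inv_naturality_left_assoc, whisker_exchange_assoc,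
    ← rightUnitor_inv_naturality_assoc]

end

section

variable {C : Type u} [Category.{v} C] [MonoidalCategory C] [SymmetricCategory C]
  [Preadditive C] [Linear ℚ C] [MonoidalPreadditive C] [MonoidalLinear ℚ C]
  [RightRigidCategory C] {K : Type w} [Field K] {M L : C}

/-- The copairing followed by the pairing. -/
theorem copair_pair (hU : UnitQ C) (b : M ⊗ M ⟶ L) (c : L ⟶ M ⊗ M)
    (b_symm : (β_ M M).hom ≫ b = b) (zig : c ▷ M ≫ (α_ M M M).hom ≫ M ◁ b = (β_ L M).hom) :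
    c ≫ b = (trq hU M (1 : End M)) • 𝟙 L := by
  have h1 : c ▷ M ≫ ((β_ M M).hom ▷ M ≫ sw M M) ≫ b ▷ M = 𝟙 (L ⊗ M) := by
    have h2 : (β_ M M).hom ▷ M ≫ sw M M = (α_ M M M).hom ≫ (β_ M (M ⊗ M)).hom := by
      have h3 := BraidedCategory.hexagon_forward M M M
      rw [sw, ← reassoc_of% h3, Iso.hom_inv_id, Category.comp_id]
    rw [h2, Category.assoc, ← BraidedCategory.braiding_naturality_right]
    have h4 := congrArg (fun z => z ≫ (β_ M L).hom) zig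
    simp only [Category.assoc] at h4
    rw [h4, SymmetricCategory.symmetry]
  have h5 : ptr (c ▷ M ≫ ((β_ M M).hom ▷ M ≫ sw M M) ≫ b ▷ M) = c ≫ b := by
    rw [ptr_comp', ptr_comp_left, ptr_sw, Category.comp_id, b_symm]
  have h6 : ptr (𝟙 (L ⊗ M)) = (trq hU M (1 : End M)) • 𝟙 L := by
    have h7 := ptr_tensor (𝟙 L) (𝟙 M) _ (trq_spec hU (1 : End M))
    rw [id_tensorHom, whiskerLeft_id] at h7
    exact h7
  rw [← h5, h1, h6]

/-- The pairing operator at the two newest positions. -/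
def eOf (b : M ⊗ M ⟶ L) (c : L ⟶ M ⊗ M) (n : ℕ) : End (tp M (n + 2)) :=
  ((α_ (tp M n) M M).hom ≫ tp M n ◁ (b ≫ c) ≫ (α_ (tp M n) M M).inv :
    (tp M n ⊗ M) ⊗ M ⟶ (tp M n ⊗ M) ⊗ M)

/-- The power of the pairing. -/
def bpow (b : M ⊗ M ⟶ L) : ∀ k : ℕ, tp M (2 * k) ⟶ tp L k
  | 0 => 𝟙 _
  | k + 1 => ((α_ (tp M (2 * k)) M M).hom ≫ (bpow b k ⊗ₘ b) :
      (tp M (2 * k) ⊗ M) ⊗ M ⟶ tp L k ⊗ L)

/-- The power of the copairing. -/
def cpow (c : L ⟶ M ⊗ M) : ∀ k : ℕ, tp L k ⟶ tp M (2 * k)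
  | 0 => 𝟙 _
  | k + 1 => ((cpow c k ⊗ₘ c) ≫ (α_ (tp M (2 * k)) M M).inv :
      tp L k ⊗ L ⟶ (tp M (2 * k) ⊗ M) ⊗ M)

lemma bpow_zero (b : M ⊗ M ⟶ L) : bpow b 0 = 𝟙 _ := rfl

lemma bpow_succ (b : M ⊗ M ⟶ L) (k : ℕ) :
    bpow b (k + 1) = ((α_ (tp M (2 * k)) M M).hom ≫ (bpow b k ⊗ₘ b) :
      (tp M (2 * k) ⊗ M) ⊗ M ⟶ tp L k ⊗ L) := rfl

lemma cpow_zero (c : L ⟶ M ⊗ M) : cpow c 0 = 𝟙 _ := rfl

lemma cpow_succ (c : L ⟶ M ⊗ M) (k : ℕ) :
    cpow c (k + 1) = ((cpow c k ⊗ₘ c) ≫ (α_ (tp M (2 * k)) M M).inv :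
      tp L k ⊗ L ⟶ (tp M (2 * k) ⊗ M) ⊗ M) := rfl

lemma cpow_bpow (b : M ⊗ M ⟶ L) (c : L ⟶ M ⊗ M) (δ : ℚ) (hcb : c ≫ b = δ • 𝟙 L) : ∀ k : ℕ,
    cpow c k ≫ bpow b k = (δ ^ k) • 𝟙 (tp L k)
  | 0 => by
    rw [pow_zero, one_smul]
    exact Category.comp_id _
  | k + 1 => by
    have ih := cpow_bpow b c δ hcb k
    have h1 : ((cpow c k ⊗ₘ c) ≫ (α_ (tp M (2 * k)) M M).inv) ≫
        ((α_ (tp M (2 * k)) M M).hom ≫ (bpow b k ⊗ₘ b)) = (δ ^ (k + 1)) • 𝟙 (tp L k ⊗ L) := by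
      rw [Category.assoc, Iso.inv_hom_id_assoc, MonoidalCategory.tensorHom_comp_tensorHom, ih, hcb,
        MonoidalCategory.tensorHom_def, MonoidalLinear.smul_whiskerRight,
        MonoidalLinear.whiskerLeft_smul, id_whiskerRight, whiskerLeft_id, Linear.smul_comp,
        Linear.comp_smul, Category.id_comp, smul_smul, pow_succ]
    exact h1

variable {R : SuperRealisation C K} {hU : UnitQ C}

/-- **The products of the pairing operators.** -/
theorem F_eq (B : Bra (tower R hU M)) (b : M ⊗ M ⟶ L) (c : L ⟶ M ⊗ M)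
    (he : ∀ n, B.e n = eOf b c n) : ∀ k : ℕ,
    (B.F k (2 * k) : tp M (2 * k) ⟶ tp M (2 * k)) = bpow b k ≫ cpow c k
  | 0 => by
    rw [Bra.F_zero]
    exact (Category.comp_id _).symm
  | k + 1 => by
    have ih := F_eq B b c he k
    have h1 : (B.F (k + 1) (2 * (k + 1)) : tp M (2 * (k + 1)) ⟶ tp M (2 * (k + 1))) =
        (((B.F k (2 * k) : tp M (2 * k) ⟶ tp M (2 * k)) ▷ M) ▷ M ≫
          ((α_ (tp M (2 * k)) M M).hom ≫ tp M (2 * k) ◁ (b ≫ c) ≫ (α_ (tp M (2 * k)) M M).inv) :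
          (tp M (2 * k) ⊗ M) ⊗ M ⟶ (tp M (2 * k) ⊗ M) ⊗ M) := by
      have h2 : B.F (k + 1) (2 * k + 2) = B.e (2 * k) *
        (tower R hU M).ι (2 * k + 1) ((tower R hU M).ι (2 * k) (B.F k (2 * k))) := rfl
      have h3 := h2
      rw [he] at h3
      exact h3
    rw [h1, ih]
    show (((bpow b k ≫ cpow c k) ▷ M) ▷ M ≫
          ((α_ (tp M (2 * k)) M M).hom ≫ tp M (2 * k) ◁ (b ≫ c) ≫ (α_ (tp M (2 * k)) M M).inv) :
          (tp M (2 * k) ⊗ M) ⊗ M ⟶ (tp M (2 * k) ⊗ M) ⊗ M) =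
      ((α_ (tp M (2 * k)) M M).hom ≫ (bpow b k ⊗ₘ b)) ≫
        ((cpow c k ⊗ₘ c) ≫ (α_ (tp M (2 * k)) M M).inv)
    rw [associator_naturality_left_assoc, Category.assoc,
      MonoidalCategory.tensorHom_comp_tensorHom_assoc, MonoidalCategory.tensorHom_def,
      Category.assoc]

/-- **The kernel of the products of the pairing operators.** -/
theorem F_mul_eq_zero_iff (B : Bra (tower R hU M)) (b : M ⊗ M ⟶ L) (c : L ⟶ M ⊗ M)
    (he : ∀ n, B.e n = eOf b c n) (b_symm : (β_ M M).hom ≫ b = b)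
    (zig : c ▷ M ≫ (α_ M M M).hom ≫ M ◁ b = (β_ L M).hom)
    (hδ : trq hU M (1 : End M) ≠ 0) (k : ℕ) (x : End (tp M (2 * k))) :
    B.F k (2 * k) * x = 0 ↔ (x : tp M (2 * k) ⟶ tp M (2 * k)) ≫ bpow b k = 0 := by
  have h1 : B.F k (2 * k) * x =
      (x : tp M (2 * k) ⟶ tp M (2 * k)) ≫ (B.F k (2 * k) : tp M (2 * k) ⟶ tp M (2 * k)) := rfl
  rw [h1, F_eq B b c he k]
  constructor
  · intro h
    have h2 := congrArg (fun z : tp M (2 * k) ⟶ tp M (2 * k) => z ≫ bpow b k) h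
    simp only [Category.assoc] at h2
    rw [cpow_bpow b c _ (copair_pair hU b c b_symm zig) k, Linear.comp_smul, Linear.comp_smul,
      Category.comp_id] at h2
    have h3 : ((trq hU M (1 : End M)) ^ k) •
        ((x : tp M (2 * k) ⟶ tp M (2 * k)) ≫ bpow b k) = 0 := h2.trans zero_comp
    exact (smul_eq_zero.1 h3).resolve_left (pow_ne_zero k hδ)
  · intro h
    rw [← Category.assoc, h, zero_comp]

end

end Pool.Agent.V8H40.BT
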